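import Pool.Agent.Henon88.Final

/-!
Periods of rational periodic points of the Henon maps `(x, y) ↦ (y, y ^ 2 + c + x)` when `|c|` is
large compared with the denominator of `c`.
-/

namespace Pool.Agent.Results.MP_fc565b_nt.LargeParameter

theorem result (c : ℚ) (q₁ q₂ m : ℕ) (hden : c.den = (q₁ * q₂ * m) ^ 2)
    (hco : Nat.Coprime q₁ (q₂ * m)) (hco' : Nat.Coprime q₂ m)
    (h₁ : q₁ = 1 ∨ (IsPrimePow q₁ ∧ q₁ ≠ 2 ∧ q₁ ≠ 3 ∧ q₁ ≠ 4 ∧ q₁ ≠ 8))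
    (h₂ : q₂ = 1 ∨ (IsPrimePow q₂ ∧ q₂ ≠ 2 ∧ q₂ ≠ 3 ∧ q₂ ≠ 4 ∧ q₂ ≠ 8))
    (hc : 81 * (m : ℚ) ^ 2 ≤ |c|) (p : ℚ × ℚ)
    (hp : 0 < Function.minimalPeriod (fun q : ℚ × ℚ => (q.2, q.2 ^ 2 + c + q.1)) p) :
    Function.minimalPeriod (fun q : ℚ × ℚ => (q.2, q.2 ^ 2 + c + q.1)) p
      ∈ ({1, 2, 3, 4, 6, 8} : Finset ℕ) := by
  refine Pool.Agent.Henon88.period_of_good (fun x h => ?_) p hp
  by_cases h0 : c < 0
  · rw [abs_of_neg h0] at hc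
    exact Pool.Agent.Henon88.orb_III h hden hco hco' h₁ h₂ (by linarith)
  · exact Pool.Agent.Henon88.good_of_norm (fun hneg => absurd hneg h0) h

end Pool.Agent.Results.MP_fc565b_nt.LargeParameter
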