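import Pool.Agent.Henon88.Final
import Pool.Agent.Henon88.Density4

/-!
Periods of rational periodic points of the Henon maps `(x, y) ↦ (y, y ^ 2 + c + x)` for nine tenths
of all denominators of `c`.
-/

namespace Pool.Agent.Results.MP_fc565b_nt.MostDenominators

/-- `b = q₀ q₁ m` with pairwise coprime factors, where `q₀` is a prime power, `q₁` is `1` or a prime
power other than `2, 3, 4, 8`, and `12 gcd (2, q₀) m ≤ q₀` -/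
def Wide (b : ℕ) : Prop :=
  ∃ q₀ q₁ m : ℕ, b = q₀ * q₁ * m ∧ Nat.Coprime q₀ (q₁ * m) ∧ Nat.Coprime q₁ m ∧
    IsPrimePow q₀ ∧ (q₁ = 1 ∨ (IsPrimePow q₁ ∧ q₁ ≠ 2 ∧ q₁ ≠ 3 ∧ q₁ ≠ 4 ∧ q₁ ≠ 8)) ∧
    12 * Nat.gcd 2 q₀ * m ≤ q₀

theorem result :
    (∀ c : ℚ, (∀ b : ℕ, c.den = b ^ 2 → Wide b) → ∀ p : ℚ × ℚ,
      0 < Function.minimalPeriod (fun q : ℚ × ℚ => (q.2, q.2 ^ 2 + c + q.1)) p →
      Function.minimalPeriod (fun q : ℚ × ℚ => (q.2, q.2 ^ 2 + c + q.1)) p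
        ∈ ({1, 2, 3, 4, 6, 8} : Finset ℕ)) ∧
    (∃ N₀ : ℕ, ∀ N : ℕ, N₀ ≤ N →
      (9 / 10 : ℝ) * N ≤ (Set.ncard {b : ℕ | 1 ≤ b ∧ b ≤ N ∧ Wide b} : ℝ)) := by
  refine ⟨fun c hc p hp => ?_, Pool.Agent.Henon88.wide_density⟩
  refine Pool.Agent.Henon88.period_of_good (fun x h => ?_) p hp
  obtain ⟨B, S, X, -, -, -, hd⟩ := h.exists_int
  obtain ⟨q₀, q₁, m, hb, h1, h2, h3, h4, h5⟩ := hc B hd
  rw [hb] at hd
  exact Pool.Agent.Henon88.orb_U h hd h1 h2 h3 h4 h5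

end Pool.Agent.Results.MP_fc565b_nt.MostDenominators
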