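import Pool.Agent.Henon88.Odd

/-!
Periods of rational periodic points of the Henon maps `(x, y) ↦ (y, y ^ 2 + c + x)` when the
denominator of `c` is odd.
-/

namespace Pool.Agent.Results.MP_fc565b_nt.OddDenominators

theorem result (c : ℚ) (hc : Odd c.den) (p : ℚ × ℚ)
    (hp : 0 < Function.minimalPeriod (fun q : ℚ × ℚ => (q.2, q.2 ^ 2 + c + q.1)) p) :
    Function.minimalPeriod (fun q : ℚ × ℚ => (q.2, q.2 ^ 2 + c + q.1)) p
      ∈ ({1, 2, 3, 4, 6, 12} : Finset ℕ) := by
  have h := Pool.Agent.Henon88.odd_period hc p hp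
  have h2 : ({1, 2, 3, 4, 6, 12} : Finset ℕ) = Nat.divisors 12 := by decide
  rw [h2, Nat.mem_divisors]
  exact ⟨h, by norm_num⟩

end Pool.Agent.Results.MP_fc565b_nt.OddDenominators
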