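import Pool.Agent.Henon88.Main

/-!
Periods of rational periodic points of the Henon maps `(x, y) ↦ (y, y ^ 2 + c + x)` when the
denominator of `c` has at most two distinct prime factors.
-/

namespace Pool.Agent.Results.MP_fc565b_nt.TwoPrimes

theorem result (c : ℚ) (hc : c.den.primeFactors.card ≤ 2) (p : ℚ × ℚ)
    (hp : 0 < Function.minimalPeriod (fun q : ℚ × ℚ => (q.2, q.2 ^ 2 + c + q.1)) p) :
    Function.minimalPeriod (fun q : ℚ × ℚ => (q.2, q.2 ^ 2 + c + q.1)) p
      ∈ ({1, 2, 3, 4, 6, 8} : Finset ℕ) :=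
  Pool.Agent.Henon88.period_of_good (fun _ h => Pool.Agent.Henon88.orb_good h hc) p hp

end Pool.Agent.Results.MP_fc565b_nt.TwoPrimes
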